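import Mathlib
import Pool.Agent.Helper404.HilbDefs
import Pool.Agent.Helper404.HilbCore
import Pool.Agent.Helper404.HilbFour

/-!
Reducibility of some Hilbert scheme of points for every normal surface with a point that is not
a hypersurface point of multiplicity at most four.
-/

namespace Pool.Agent.Results.MP_eb1332_ag.AllButHypersurfacesMultAtMost4

open Pool.Agent.Helper404.HilbNG

universe u v

/-- The Hilbert–Samuel multiplicity of the two-dimensional local ring `A_M`: the limit of
`2 * dim (A / M ^ r) / r ^ 2` (here `A / M = k`, so dimensions over `k` are lengths). -/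
def HasMultiplicity (k : Type u) {A : Type v} [Field k] [CommRing A] [Algebra k A] (M : Ideal A)
    (e : ℝ) : Prop :=
  Filter.Tendsto (fun r : ℕ => 2 * (Module.finrank k (A ⧸ M ^ r) : ℝ) / (r : ℝ) ^ 2)
    Filter.atTop (nhds e)

/-- `A_M` has embedding dimension four, `dim M / M ^ 2 = 4`, and at most two independent quadratic
relations, `dim M ^ 2 / M ^ 3 ≥ 8` (here `A / M = k`). All complete intersection points of
embedding dimension four have this property. -/
def EmbDimFour (k : Type u) {A : Type v} [Field k] [CommRing A] [Algebra k A] (M : Ideal A) :
    Prop :=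
  Module.finrank k (A ⧸ M ^ 2) = 1 + 4 ∧ 1 + 4 + 8 ≤ Module.finrank k (A ⧸ M ^ 3)

/-- Let `A` be a finitely generated algebra over an algebraically closed field `k` of
characteristic zero which is an integrally closed domain of dimension two, so that `Spec A` is an
affine normal surface. If at some closed point `M` the surface is not Gorenstein, or has
multiplicity greater than four, or has embedding dimension four with at most two quadratic
relations (for example a complete intersection of embedding dimension four), then for some
`d ≥ 1` the Hilbert scheme of length `d` subschemes of `Spec A` is reducible (non-empty, not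
irreducible). -/
theorem result (k : Type u) [Field k] [IsAlgClosed k] [CharZero k] (A : Type v) [CommRing A]
    [IsDomain A] [Algebra k A] [Algebra.FiniteType k A] [IsIntegrallyClosed A]
    (hdim : ringKrullDim A = 2) (M : Ideal A) [hM : M.IsMaximal]
    (h : ¬ IsGorensteinTwo (Localization.AtPrime M) ∨ (∃ e : ℝ, 4 < e ∧ HasMultiplicity k M e) ∨
      EmbDimFour k M) :
    ∃ d : ℕ, 1 ≤ d ∧ Nonempty (Hilb k A d) ∧ ¬ IrreducibleSpace (Hilb k A d) := by
  rcases h with hG | ⟨e, he, hm⟩ | ⟨h2, h3⟩
  · exact main hdim M hG
  · obtain ⟨r, hr⟩ := exists_of_mult (fun r => Module.finrank k (A ⧸ M ^ r)) e he hm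
    exact main_big hdim M hM r hr
  · exact main_four hdim M hM h2 h3

end Pool.Agent.Results.MP_eb1332_ag.AllButHypersurfacesMultAtMost4
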