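import Mathlib
import Pool.Agent.Helper404.HilbDefs
import Pool.Agent.Helper404.HilbCore

/-!
Hilbert schemes of points of a normal surface with a non-Gorenstein point are not all irreducible.
-/

namespace Pool.Agent.Results.MP_eb1332_ag.NonGorenstein

open Pool.Agent.Helper404.HilbNG

universe u v

/-- Let `A` be a finitely generated algebra over an algebraically closed field `k` which is an
integrally closed domain of dimension two, so that `Spec A` is an affine normal surface. If the
local ring of `Spec A` at some closed point `M` is not Gorenstein, then for some `d ≥ 1` the
Hilbert scheme of length `d` subschemes of `Spec A` is reducible (non-empty, not irreducible). -/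
theorem result (k : Type u) [Field k] [IsAlgClosed k] (A : Type v) [CommRing A] [IsDomain A]
    [Algebra k A] [Algebra.FiniteType k A] [IsIntegrallyClosed A] (hdim : ringKrullDim A = 2)
    (M : Ideal A) [M.IsMaximal] (hG : ¬ IsGorensteinTwo (Localization.AtPrime M)) :
    ∃ d : ℕ, 1 ≤ d ∧ Nonempty (Hilb k A d) ∧ ¬ IrreducibleSpace (Hilb k A d) :=
  main hdim M hG

end Pool.Agent.Results.MP_eb1332_ag.NonGorenstein
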